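import Pool.Agent.H47.ST.Targets

/-!
# MP_78620a_co: row ITE, iterates of the revstack sort operator and insertion
-/

namespace Pool.Agent.H52.STK

open Finset Pool.Agent.H47.ST

theorem pf_ITE (h1 : T_PERM) (h2 : T_TST) (h3 : T_ANT) : T_ITE := by
  intro n w p k hw hp
  induction k with
  | zero => exact ⟨rfl, hp, hw⟩
  | succ k ih =>
    obtain ⟨ih1, ih2, ih3⟩ := ih
    have hnd : (T^[k] w).Nodup := ih3.nodup_iff.2 List.nodup_range
    have hlen : (T^[k] w).length = n := by
      rw [ih3.length_eq, List.length_range]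
    have horb : orb (gw w) (k + 1) p = gT (T^[k] w) (orb (gw w) k p) := rfl
    refine ⟨?_, ?_, ?_⟩
    · rw [Function.iterate_succ_apply', Function.iterate_succ_apply', ih1, horb]
      exact h2 _ _ hnd (by rw [hlen]; exact ih2)
    · rw [horb]
      have h4 := (h3 (T^[k] w) (orb (gw w) k p) (orb (gw w) k p) le_rfl).2
      rw [hlen] at h4
      exact h4
    · rw [Function.iterate_succ_apply']
      have h5 : (T (T^[k] w)).Perm (T^[k] w).reverse := h1 _
      exact (h5.trans (List.reverse_perm _)).trans ih3

end Pool.Agent.H52.STK
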