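import Pool.Agent.H47.ST.Targets

/-!
# MP_78620a_co: row SUC, the stack sort operator commutes with the shift of the letters
-/

namespace Pool.Agent.H52.STK

open Finset Pool.Agent.H47.ST

theorem mx_succ {w : List ℕ} (h : w ≠ []) : mx (w.map Nat.succ) = mx w + 1 := by
  induction w with
  | nil => exact absurd rfl h
  | cons a w ih =>
    by_cases hw : w = []
    · subst hw; simp [mx]
    · have h1 := ih hw
      simp only [mx, List.map_cons, List.foldr_cons] at h1 ⊢
      rw [h1]
      omega

theorem S_nil : S [] = [] := by
  rw [S, dif_pos rfl]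

theorem S_of_ne {w : List ℕ} (h : w ≠ []) : S w =
    S (w.takeWhile (fun x => decide (x ≠ mx w))) ++
      S ((w.dropWhile (fun x => decide (x ≠ mx w))).tail) ++ [mx w] := by
  rw [S, dif_neg h]

theorem S_succ (N : ℕ) : ∀ w : List ℕ, w.length ≤ N →
    S (w.map Nat.succ) = (S w).map Nat.succ := by
  induction N with
  | zero =>
    intro w hw
    have h : w = [] := List.length_eq_zero_iff.1 (Nat.le_zero.1 hw)
    subst h
    rw [List.map_nil, S_nil, List.map_nil]
  | succ N ih =>
    intro w hw
    by_cases h : w = []
    · subst h
      rw [List.map_nil, S_nil, List.map_nil]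
    · have hm : w.map Nat.succ ≠ [] := by simpa using h
      have hf : ((fun x => decide (x ≠ mx w + 1)) ∘ Nat.succ) =
          (fun x => decide (x ≠ mx w)) := by
        funext x
        simp
      have h1 := length_takeWhile_lt (mx_mem h)
      have h2 := length_tail_dropWhile_lt w (mx w) h
      rw [S_of_ne hm, S_of_ne h, mx_succ h, List.takeWhile_map, List.dropWhile_map, hf,
        ih _ (by omega), ← List.map_tail, ih _ (by omega), List.map_append, List.map_append]
      rfl

theorem pf_SUC : T_SUC := fun w => S_succ w.length w le_rfl

end Pool.Agent.H52.STK
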